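import Pool.Agent.helper70.Oct.Defs
import Pool.Agent.helper46.Oct.D

set_option autoImplicit false
set_option linter.all false

/-! Module F1: the cells (helper19). -/

open MvPolynomial Set Filter Topology

namespace Oct

namespace F1

/-- the cone over the image of `S` -/
def cone {α : Type*} (φ : α → Fin 3 → ℝ) (S : Set α) : Set V3 :=
  {v | ∃ r > (0 : ℝ), ∃ p ∈ S, v.1 = r • φ p}

theorem cone_closed {α : Type*} [TopologicalSpace α] {φ : α → Fin 3 → ℝ} (hφ : Continuous φ)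
    {S : Set α} (hS : IsCompact S) (h0 : ∀ p ∈ S, φ p ≠ 0) : IsClosed (cone φ S) := by
  have h1 : IsCompact ((fun p => ‖φ p‖⁻¹ • φ p) '' S) := by
    refine hS.image_of_continuousOn ?_
    refine ContinuousOn.fun_smul ?_ hφ.continuousOn
    exact ContinuousOn.inv₀ hφ.norm.continuousOn fun p hp => norm_ne_zero_iff.2 (h0 p hp)
  have h2 : Continuous fun v : V3 => ‖v.1‖⁻¹ • v.1 := by
    refine Continuous.fun_smul ?_ continuous_subtype_val
    exact Continuous.inv₀ continuous_subtype_val.norm fun v => norm_ne_zero_iff.2 v.2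
  have h3 : cone φ S = (fun v : V3 => ‖v.1‖⁻¹ • v.1) ⁻¹' ((fun p => ‖φ p‖⁻¹ • φ p) '' S) := by
    ext v
    constructor
    · rintro ⟨r, hr, p, hp, hv⟩
      refine ⟨p, hp, ?_⟩
      have hn : ‖φ p‖ ≠ 0 := norm_ne_zero_iff.2 (h0 p hp)
      show ‖φ p‖⁻¹ • φ p = ‖v.1‖⁻¹ • v.1
      rw [hv, norm_smul, Real.norm_eq_abs, abs_of_pos hr, smul_smul]
      congr 1
      field_simp
    · rintro ⟨p, hp, hv⟩
      have hn : 0 < ‖φ p‖ := norm_pos_iff.2 (h0 p hp)
      have hn' : 0 < ‖v.1‖ := norm_pos_iff.2 v.2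
      refine ⟨‖v.1‖ * ‖φ p‖⁻¹, by positivity, p, hp, ?_⟩
      have hv' : ‖φ p‖⁻¹ • φ p = ‖v.1‖⁻¹ • v.1 := hv
      rw [mul_smul, hv', smul_smul, mul_inv_cancel₀ hn'.ne', one_smul]
  rw [h3]
  exact h1.isClosed.preimage h2

theorem cone_conn {α : Type*} [TopologicalSpace α] {φ : α → Fin 3 → ℝ} (hφ : Continuous φ)
    {S : Set α} (hS : IsPreconnected S) (h0 : ∀ p ∈ S, φ p ≠ 0) : IsPreconnected (cone φ S) := by
  have h2 : Topology.IsInducing (Subtype.val : V3 → Fin 3 → ℝ) := Topology.IsInducing.subtypeVal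
  rw [← h2.isPreconnected_image]
  have h1 : (Subtype.val '' cone φ S : Set (Fin 3 → ℝ))
      = (fun q : ℝ × α => q.1 • φ q.2) '' (Ioi (0 : ℝ) ×ˢ S) := by
    ext w
    constructor
    · rintro ⟨v, ⟨r, hr, p, hp, hv⟩, rfl⟩
      exact ⟨(r, p), ⟨hr, hp⟩, hv.symm⟩
    · rintro ⟨⟨r, p⟩, ⟨hr, hp⟩, rfl⟩
      exact ⟨⟨r • φ p, smul_ne_zero (ne_of_gt hr) (h0 p hp)⟩, ⟨r, hr, p, hp, rfl⟩, rfl⟩
  rw [h1]
  refine (isPreconnected_Ioi.prod hS).image _ ?_
  exact (continuous_fst.fun_smul (hφ.comp continuous_snd)).continuousOn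

theorem cone_mul {α : Type*} {φ : α → Fin 3 → ℝ} {S : Set α} {x : V3} (hx : x ∈ cone φ S)
    (r : ℝ) (hr : 0 < r) : mulV r hr x ∈ cone φ S := by
  obtain ⟨r', hr', p, hp, hv⟩ := hx
  refine ⟨r * r', mul_pos hr hr', p, hp, ?_⟩
  show r • x.1 = _
  rw [hv, smul_smul]

theorem sg_ne (b : Bool) : sg b ≠ 0 := by unfold sg; split_ifs <;> norm_num

theorem sg_not (b : Bool) : sg (!b) = -sg b := by cases b <;> simp [sg]

theorem pole_eq (l : Bool) : pole l = sg (!l) • pole false := by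
  cases l <;> simp [pole, sg]

theorem pole_eq' (l : Bool) : pole (!l) = sg (!l) • pole true := by
  cases l <;> simp [pole, sg]

theorem pole_ne (l : Bool) : pole l ≠ 0 := by
  intro h
  have := congrFun h 2
  simp [pole] at this
  exact sg_ne _ this

theorem pole_not (l : Bool) : pole (!l) = -pole l := by
  cases l <;> simp [pole, sg]

theorem cont_pt (c : Chart) : Continuous fun p : ℝ × ℝ => c.pt p.1 p.2 := by
  refine continuous_pi fun k => ?_
  fin_cases k
  · simp only [Chart.pt, Chart.vx]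
    show Continuous fun p : ℝ × ℝ => (c.x0 + c.x1 * p.1 : ℝ)
    fun_prop
  · show Continuous fun p : ℝ × ℝ => c.vy p.1
    unfold Chart.vy
    fun_prop
  · show Continuous fun p : ℝ × ℝ => c.al * p.2 + c.be p.1
    unfold Chart.be
    fun_prop

section
variable {ct : Cert} (h : Comb ct)
include h

theorem pt_ne {i : ℕ} (hi : i < ct.n) {t : ℝ} (ht : t ∈ Icc ((ct.col i).a : ℝ) (ct.col i).b)
    (u : ℝ) : (ct.col i).ch.pt t u ≠ 0 := by
  intro h0
  apply (Oct.vy_nonneg h hi ht).2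
  exact ⟨congrFun h0 0, congrFun h0 1⟩

theorem end_ne {i : ℕ} (hi : i < ct.n) {t : ℝ} (ht : t ∈ Icc ((ct.col i).a : ℝ) (ct.col i).b)
    (u s : ℝ) (e : Bool) : s • (ct.col i).ch.pt t u + (1 - s) • pole e ≠ 0 := by
  intro h0
  have e0 := congrFun h0 0
  have e1 := congrFun h0 1
  simp [Chart.pt, pole] at e0 e1
  by_cases hs : s = 0
  · subst hs
    simp at h0
    exact pole_ne e h0
  · exact (Oct.vy_nonneg h hi ht).2 ⟨e0.resolve_left hs, e1.resolve_left hs⟩

end

/-- the parametrisations -/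
theorem K_box (ct : Cert) (l : Bool) (i j : ℕ) : ct.K (Cell.box l i j) =
    cone (fun p : ℝ × ℝ => sg (!l) • (ct.col i).ch.pt p.1 p.2)
      (Icc ((ct.col i).a : ℝ) (ct.col i).b ×ˢ
        Icc (((ct.col i).box j).lo : ℝ) ((ct.col i).box j).hi) := by
  ext v
  constructor
  · rintro ⟨r, hr, t, ht, u, hu, hv⟩
    exact ⟨r, hr, (t, u), ⟨ht, hu⟩, by rw [hv, mul_smul]⟩
  · rintro ⟨r, hr, ⟨t, u⟩, ⟨ht, hu⟩, hv⟩
    exact ⟨r, hr, t, ht, u, hu, by rw [hv, mul_smul]⟩

theorem K_top (ct : Cert) (l : Bool) (i : ℕ) : ct.K (Cell.top l i) =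
    cone (fun p : ℝ × ℝ => sg (!l) •
      (p.2 • (ct.col i).ch.pt p.1 (ct.col i).H + (1 - p.2) • pole false))
      (Icc ((ct.col i).a : ℝ) (ct.col i).b ×ˢ Icc (0 : ℝ) 1) := by
  ext v
  constructor
  · rintro ⟨r, hr, t, ht, u, hu, hv⟩
    exact ⟨r, hr, (t, u), ⟨ht, hu⟩, by rw [hv, mul_smul]⟩
  · rintro ⟨r, hr, ⟨t, u⟩, ⟨ht, hu⟩, hv⟩
    exact ⟨r, hr, t, ht, u, hu, by rw [hv, mul_smul]⟩

theorem K_bot (ct : Cert) (l : Bool) (i : ℕ) : ct.K (Cell.bot l i) =
    cone (fun p : ℝ × ℝ => sg (!l) •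
      (p.2 • (ct.col i).ch.pt p.1 (ct.col i).L + (1 - p.2) • pole true))
      (Icc ((ct.col i).a : ℝ) (ct.col i).b ×ˢ Icc (0 : ℝ) 1) := by
  ext v
  constructor
  · rintro ⟨r, hr, t, ht, u, hu, hv⟩
    exact ⟨r, hr, (t, u), ⟨ht, hu⟩, by rw [hv, mul_smul]⟩
  · rintro ⟨r, hr, ⟨t, u⟩, ⟨ht, hu⟩, hv⟩
    exact ⟨r, hr, t, ht, u, hu, by rw [hv, mul_smul]⟩

theorem K_pole (ct : Cert) (l : Bool) : ct.K (Cell.pole l) =
    cone (fun _ : Unit => pole l) univ := by
  ext v
  constructor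
  · rintro ⟨r, hr, hv⟩
    exact ⟨r, hr, (), mem_univ _, hv⟩
  · rintro ⟨r, hr, _, _, hv⟩
    exact ⟨r, hr, hv⟩

theorem cont_box (l : Bool) (c : Chart) : Continuous fun p : ℝ × ℝ => sg (!l) • c.pt p.1 p.2 :=
  continuous_const.fun_smul (cont_pt c)

theorem cont_end (l : Bool) (c : Chart) (w : ℝ) (e : Bool) : Continuous fun p : ℝ × ℝ =>
    sg (!l) • (p.2 • c.pt p.1 w + (1 - p.2) • pole e) := by
  refine continuous_const.fun_smul ?_
  refine Continuous.fun_add ?_ ?_
  · exact continuous_snd.fun_smul ((cont_pt c).comp (continuous_fst.prodMk continuous_const))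
  · exact (continuous_const.sub continuous_snd).fun_smul continuous_const

/-- affine lines upwards -/
theorem pt_add (c : Chart) (t u x : ℝ) (hal : (c.al : ℝ) ≠ 0) :
    c.pt t (u + x / c.al) = c.pt t u + x • pole false := by
  funext k
  fin_cases k
  · simp [Chart.pt, pole]
  · simp [Chart.pt, pole]
  · simp [Chart.pt, pole, sg]
    field_simp
    ring

theorem pole_true : pole true = -pole false := by simp [pole, sg]

theorem L_eq {c : Column} (hc : c.bx ≠ []) : c.L = (c.box 0).lo := by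
  unfold Column.L Column.box
  cases hb : c.bx with
  | nil => exact absurd hb hc
  | cons b l => simp

theorem H_eq {c : Column} (hc : c.bx ≠ []) : c.H = (c.box (c.bx.length - 1)).hi := by
  unfold Column.H Column.box
  have h1 : c.bx.getLast? = some (c.bx.getLast hc) := List.getLast?_eq_getLast_of_ne_nil hc
  have h2 : c.bx.getD (c.bx.length - 1) box0 = c.bx.getLast hc := by
    rw [List.getLast_eq_getElem]
    have : c.bx.length - 1 < c.bx.length := by
      have := List.length_pos_iff.2 hc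
      omega
    exact List.getD_eq_getElem _ _ this
  rw [h1, h2]

theorem find_box {c : Column} (hc : c.bx ≠ [])
    (hv : ∀ j, j + 1 < c.bx.length → (c.box j).hi = (c.box (j + 1)).lo) {u : ℝ}
    (hL : (c.L : ℝ) ≤ u) (hH : u ≤ (c.H : ℝ)) :
    ∃ j < c.bx.length, u ∈ Icc ((c.box j).lo : ℝ) (c.box j).hi := by
  have hlen : 0 < c.bx.length := List.length_pos_iff.2 hc
  have key : ∀ k, k < c.bx.length → u ≤ ((c.box k).hi : ℝ) →
      ∃ j < c.bx.length, u ∈ Icc ((c.box j).lo : ℝ) (c.box j).hi := by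
    intro k
    induction k with
    | zero =>
      intro hk hu
      exact ⟨0, hk, by rw [← L_eq hc]; exact hL, hu⟩
    | succ k ih =>
      intro hk hu
      by_cases hle : u ≤ ((c.box k).hi : ℝ)
      · exact ih (by omega) hle
      · refine ⟨k + 1, hk, ?_, hu⟩
        rw [← hv k hk]
        exact (not_le.1 hle).le
  refine key (c.bx.length - 1) (by omega) ?_
  rw [← H_eq hc]
  exact hH

end F1

open F1

section F
variable {ct : Cert} (h : Comb ct)
include h

theorem K_closed (c : Cell) (hc : ct.Valid c) : IsClosed (ct.K c) := by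
  match c, hc with
  | Cell.box l i j, hc =>
    rw [K_box]
    exact cone_closed (cont_box l _) (isCompact_Icc.prod isCompact_Icc)
      fun p hp => smul_ne_zero (sg_ne _) (pt_ne h hc.1 hp.1 _)
  | Cell.top l i, hc =>
    rw [K_top]
    exact cone_closed (cont_end l _ _ _) (isCompact_Icc.prod isCompact_Icc)
      fun p hp => smul_ne_zero (sg_ne _) (end_ne h hc hp.1 _ _ _)
  | Cell.bot l i, hc =>
    rw [K_bot]
    exact cone_closed (cont_end l _ _ _) (isCompact_Icc.prod isCompact_Icc)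
      fun p hp => smul_ne_zero (sg_ne _) (end_ne h hc hp.1 _ _ _)
  | Cell.pole l, hc =>
    rw [K_pole]
    exact cone_closed continuous_const isCompact_univ fun _ _ => pole_ne l

theorem K_conn (c : Cell) (hc : ct.Valid c) : IsPreconnected (ct.K c) := by
  match c, hc with
  | Cell.box l i j, hc =>
    rw [K_box]
    exact cone_conn (cont_box l _) (isPreconnected_Icc.prod isPreconnected_Icc)
      fun p hp => smul_ne_zero (sg_ne _) (pt_ne h hc.1 hp.1 _)
  | Cell.top l i, hc =>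
    rw [K_top]
    exact cone_conn (cont_end l _ _ _) (isPreconnected_Icc.prod isPreconnected_Icc)
      fun p hp => smul_ne_zero (sg_ne _) (end_ne h hc hp.1 _ _ _)
  | Cell.bot l i, hc =>
    rw [K_bot]
    exact cone_conn (cont_end l _ _ _) (isPreconnected_Icc.prod isPreconnected_Icc)
      fun p hp => smul_ne_zero (sg_ne _) (end_ne h hc hp.1 _ _ _)
  | Cell.pole l, hc =>
    rw [K_pole]
    exact cone_conn continuous_const isPreconnected_univ fun _ _ => pole_ne l

theorem K_cone (c : Cell) (x : V3) (r : ℝ) (hr : 0 < r) (hx : x ∈ ct.K c) :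
    mulV r hr x ∈ ct.K c := by
  match c, hx with
  | Cell.box l i j, hx =>
    rw [K_box] at hx ⊢
    exact cone_mul hx r hr
  | Cell.top l i, hx =>
    rw [K_top] at hx ⊢
    exact cone_mul hx r hr
  | Cell.bot l i, hx =>
    rw [K_bot] at hx ⊢
    exact cone_mul hx r hr
  | Cell.pole l, hx =>
    rw [K_pole] at hx ⊢
    exact cone_mul hx r hr

theorem K_inv_box (l : Bool) (i j : ℕ) (x : V3) :
    x ∈ ct.K (Cell.box (!l) i j) ↔ negV x ∈ ct.K (Cell.box l i j) := by
  constructor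
  · rintro ⟨r, hr, t, ht, u, hu, hv⟩
    refine ⟨r, hr, t, ht, u, hu, ?_⟩
    show -x.1 = _
    rw [hv, ← neg_smul, sg_not (!l), mul_neg, neg_neg]
  · rintro ⟨r, hr, t, ht, u, hu, hv⟩
    refine ⟨r, hr, t, ht, u, hu, ?_⟩
    have hv' : -x.1 = _ := hv
    rw [← neg_neg x.1, hv', ← neg_smul, sg_not (!l), mul_neg]

theorem K_inv_top (l : Bool) (i : ℕ) (x : V3) :
    x ∈ ct.K (Cell.top (!l) i) ↔ negV x ∈ ct.K (Cell.top l i) := by
  constructor
  · rintro ⟨r, hr, t, ht, u, hu, hv⟩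
    refine ⟨r, hr, t, ht, u, hu, ?_⟩
    show -x.1 = _
    rw [hv, ← neg_smul, sg_not (!l), mul_neg, neg_neg]
  · rintro ⟨r, hr, t, ht, u, hu, hv⟩
    refine ⟨r, hr, t, ht, u, hu, ?_⟩
    have hv' : -x.1 = _ := hv
    rw [← neg_neg x.1, hv', ← neg_smul, sg_not (!l), mul_neg]

theorem K_inv_bot (l : Bool) (i : ℕ) (x : V3) :
    x ∈ ct.K (Cell.bot (!l) i) ↔ negV x ∈ ct.K (Cell.bot l i) := by
  constructor
  · rintro ⟨r, hr, t, ht, u, hu, hv⟩
    refine ⟨r, hr, t, ht, u, hu, ?_⟩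
    show -x.1 = _
    rw [hv, ← neg_smul, sg_not (!l), mul_neg, neg_neg]
  · rintro ⟨r, hr, t, ht, u, hu, hv⟩
    refine ⟨r, hr, t, ht, u, hu, ?_⟩
    have hv' : -x.1 = _ := hv
    rw [← neg_neg x.1, hv', ← neg_smul, sg_not (!l), mul_neg]

theorem K_inv_pole (l : Bool) (x : V3) :
    x ∈ ct.K (Cell.pole (!l)) ↔ negV x ∈ ct.K (Cell.pole l) := by
  constructor
  · rintro ⟨r, hr, hv⟩
    refine ⟨r, hr, ?_⟩
    show -x.1 = _
    rw [hv, pole_not, smul_neg, neg_neg]
  · rintro ⟨r, hr, hv⟩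
    refine ⟨r, hr, ?_⟩
    have hv' : -x.1 = _ := hv
    rw [← neg_neg x.1, hv', pole_not, smul_neg]

/-- description of the unbounded cells: half lines above the highest level, and the pole -/
theorem mem_top_iff (l : Bool) {i : ℕ} (hi : i < ct.n) (x : V3) :
    x ∈ ct.K (Cell.top l i) ↔ x ∈ ct.K (Cell.pole l) ∨
      ∃ r > 0, ∃ t ∈ Icc ((ct.col i).a : ℝ) (ct.col i).b, ∃ u : ℝ, ((ct.col i).H : ℝ) ≤ u ∧
        x.1 = (r * sg (!l)) • (ct.col i).ch.pt t u := by
  obtain ⟨hR, hal, -⟩ := h.colR _ (Oct.col_pos h hi)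
  have hal' : (0 : ℝ) < (ct.col i).ch.al := by exact_mod_cast hal
  constructor
  · rintro ⟨r, hr, t, ht, s, hs, hv⟩
    rcases hs.1.eq_or_lt with h0 | h0
    · left
      refine ⟨r, hr, ?_⟩
      rw [hv, ← h0, zero_smul, zero_add, sub_zero, one_smul, mul_smul, ← pole_eq]
    · right
      refine ⟨r * s, mul_pos hr h0, t, ht, (ct.col i).H + (1 - s) / s / (ct.col i).ch.al, ?_, ?_⟩
      · have : 0 ≤ (1 - s) / s / (ct.col i).ch.al := by
          have := hs.2
          apply div_nonneg (div_nonneg (by linarith) h0.le) hal'.le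
        linarith
      · rw [hv, pt_add _ _ _ _ hal'.ne', mul_right_comm, mul_smul (r * sg (!l)) s]
        rw [smul_add s, smul_smul s, mul_div_cancel₀ _ h0.ne']
  · rintro (⟨r, hr, hv⟩ | ⟨r, hr, t, ht, u, hu, hv⟩)
    · refine ⟨r, hr, (ct.col i).a, ⟨le_rfl, ?_⟩, 0, ⟨le_rfl, zero_le_one⟩, ?_⟩
      · have : (ct.col i).a ≤ (ct.col i).b := by unfold Column.a Column.b; omega
        exact_mod_cast this
      · rw [hv, zero_smul, zero_add, sub_zero, one_smul, mul_smul, ← pole_eq]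
    · have hw : 0 ≤ (ct.col i).ch.al * (u - (ct.col i).H) :=
        mul_nonneg hal'.le (by linarith)
      have hw1 : 0 < 1 + (ct.col i).ch.al * (u - (ct.col i).H) := by linarith
      refine ⟨r * (1 + (ct.col i).ch.al * (u - (ct.col i).H)), mul_pos hr hw1, t, ht,
        (1 + (ct.col i).ch.al * (u - (ct.col i).H))⁻¹, ⟨by positivity, inv_le_one_of_one_le₀ (by linarith)⟩, ?_⟩
      have e1 : u = (ct.col i).H + ((ct.col i).ch.al * (u - (ct.col i).H)) / (ct.col i).ch.al := by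
        field_simp
        ring
      rw [hv]
      conv_lhs => rw [e1]
      rw [pt_add _ _ _ _ hal'.ne', mul_right_comm, mul_smul (r * sg (!l))]
      congr 1
      rw [smul_add, smul_smul, smul_smul, mul_inv_cancel₀ hw1.ne', one_smul]
      congr 2
      field_simp
      ring

theorem mem_bot_iff (l : Bool) {i : ℕ} (hi : i < ct.n) (x : V3) :
    x ∈ ct.K (Cell.bot l i) ↔ x ∈ ct.K (Cell.pole (!l)) ∨
      ∃ r > 0, ∃ t ∈ Icc ((ct.col i).a : ℝ) (ct.col i).b, ∃ u : ℝ, u ≤ ((ct.col i).L : ℝ) ∧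
        x.1 = (r * sg (!l)) • (ct.col i).ch.pt t u := by
  obtain ⟨hR, hal, -⟩ := h.colR _ (Oct.col_pos h hi)
  have hal' : (0 : ℝ) < (ct.col i).ch.al := by exact_mod_cast hal
  constructor
  · rintro ⟨r, hr, t, ht, s, hs, hv⟩
    rcases hs.1.eq_or_lt with h0 | h0
    · left
      refine ⟨r, hr, ?_⟩
      rw [hv, ← h0, zero_smul, zero_add, sub_zero, one_smul, mul_smul, ← pole_eq']
    · right
      refine ⟨r * s, mul_pos hr h0, t, ht, (ct.col i).L + (-((1 - s) / s)) / (ct.col i).ch.al, ?_, ?_⟩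
      · have h1 : 0 ≤ (1 - s) / s / (ct.col i).ch.al := by
          have := hs.2
          apply div_nonneg (div_nonneg (by linarith) h0.le) hal'.le
        rw [neg_div]
        linarith
      · rw [hv, pt_add _ _ _ _ hal'.ne', mul_right_comm, mul_smul (r * sg (!l)) s]
        rw [smul_add s, smul_smul s, pole_true, smul_neg, mul_neg,
          mul_div_cancel₀ _ h0.ne', neg_smul]
  · rintro (⟨r, hr, hv⟩ | ⟨r, hr, t, ht, u, hu, hv⟩)
    · refine ⟨r, hr, (ct.col i).a, ⟨le_rfl, ?_⟩, 0, ⟨le_rfl, zero_le_one⟩, ?_⟩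
      · have : (ct.col i).a ≤ (ct.col i).b := by unfold Column.a Column.b; omega
        exact_mod_cast this
      · rw [hv, zero_smul, zero_add, sub_zero, one_smul, mul_smul, ← pole_eq']
    · have hw : 0 ≤ (ct.col i).ch.al * ((ct.col i).L - u) :=
        mul_nonneg hal'.le (by linarith)
      have hw1 : 0 < 1 + (ct.col i).ch.al * ((ct.col i).L - u) := by linarith
      refine ⟨r * (1 + (ct.col i).ch.al * ((ct.col i).L - u)), mul_pos hr hw1, t, ht,
        (1 + (ct.col i).ch.al * ((ct.col i).L - u))⁻¹, ⟨by positivity, inv_le_one_of_one_le₀ (by linarith)⟩, ?_⟩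
      have e1 : u = (ct.col i).L + (-((ct.col i).ch.al * ((ct.col i).L - u))) / (ct.col i).ch.al := by
        field_simp
        ring
      rw [hv]
      conv_lhs => rw [e1]
      rw [pt_add _ _ _ _ hal'.ne', mul_right_comm, mul_smul (r * sg (!l))]
      congr 1
      rw [smul_add, smul_smul, smul_smul, mul_inv_cancel₀ hw1.ne', one_smul, pole_true, smul_neg,
        neg_smul]
      congr 3
      field_simp
      ring

theorem F1.K_cover_half (x : V3) (hy : 0 ≤ x.1 1) (hxy : ¬ (x.1 0 = 0 ∧ x.1 1 = 0)) :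
    (∃ i j, ct.Valid (Cell.box false i j) ∧ x ∈ ct.K (Cell.box false i j)) ∨
    (∃ i, i < ct.n ∧ x ∈ ct.K (Cell.top false i)) ∨ (∃ i, i < ct.n ∧ x ∈ ct.K (Cell.bot false i)) := by
  obtain ⟨i, hi, t, ht, r, hr, h0, h1⟩ := Oct.sector_cover h hy hxy
  have hmem := Oct.col_pos h hi
  obtain ⟨hR, hal, -, -, -, hne⟩ := h.colR _ hmem
  have hal' : (0 : ℝ) < (ct.col i).ch.al := by exact_mod_cast hal
  set u : ℝ := (x.1 2 / r - (ct.col i).ch.be t) / (ct.col i).ch.al with hu
  have hx : x.1 = (r * sg (!false)) • (ct.col i).ch.pt t u := by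
    have hs : sg (!false) = 1 := by simp [sg]
    rw [hs, mul_one]
    funext k
    fin_cases k
    · simpa [Chart.pt] using h0
    · simpa [Chart.pt] using h1
    · show x.1 2 = r * ((ct.col i).ch.al * u + (ct.col i).ch.be t)
      rw [hu]
      field_simp
      ring
  by_cases hH : ((ct.col i).H : ℝ) ≤ u
  · right; left
    exact ⟨i, hi, (mem_top_iff h false hi x).2 (Or.inr ⟨r, hr, t, ht, u, hH, hx⟩)⟩
  · by_cases hL : u ≤ ((ct.col i).L : ℝ)
    · right; right
      exact ⟨i, hi, (mem_bot_iff h false hi x).2 (Or.inr ⟨r, hr, t, ht, u, hL, hx⟩)⟩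
    · left
      obtain ⟨j, hj, hju⟩ := find_box hne (fun j hj => (h.vert _ hmem j hj).1)
        (not_le.1 hL).le (not_le.1 hH).le
      exact ⟨i, j, ⟨hi, hj⟩, r, hr, t, ht, u, hju, hx⟩

theorem K_cover (x : V3) : ∃ c, ct.Valid c ∧ x ∈ ct.K c := by
  by_cases hxy : x.1 0 = 0 ∧ x.1 1 = 0
  · have h2 : x.1 2 ≠ 0 := by
      intro h2
      apply x.2
      funext k
      fin_cases k
      · exact hxy.1
      · exact hxy.2
      · exact h2
    rcases lt_or_gt_of_ne h2 with hn | hp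
    · refine ⟨Cell.pole true, trivial, -x.1 2, by linarith, ?_⟩
      funext k
      fin_cases k
      · simpa [pole] using hxy.1
      · simpa [pole] using hxy.2
      · simp [pole, sg]
    · refine ⟨Cell.pole false, trivial, x.1 2, hp, ?_⟩
      funext k
      fin_cases k
      · simpa [pole] using hxy.1
      · simpa [pole] using hxy.2
      · simp [pole, sg]
  · rcases le_total 0 (x.1 1) with hy | hy
    · rcases F1.K_cover_half h x hy hxy with ⟨i, j, hv, hx⟩ | ⟨i, hi, hx⟩ | ⟨i, hi, hx⟩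
      · exact ⟨_, hv, hx⟩
      · exact ⟨Cell.top false i, hi, hx⟩
      · exact ⟨Cell.bot false i, hi, hx⟩
    · have hxy' : ¬ ((negV x).1 0 = 0 ∧ (negV x).1 1 = 0) := by
        rintro ⟨a, b⟩
        apply hxy
        have a' : -x.1 0 = 0 := a
        have b' : -x.1 1 = 0 := b
        exact ⟨neg_eq_zero.1 a', neg_eq_zero.1 b'⟩
      have hy' : 0 ≤ (negV x).1 1 := by
        show 0 ≤ -x.1 1
        linarith
      rcases F1.K_cover_half h (negV x) hy' hxy' with ⟨i, j, hv, hx⟩ | ⟨i, hi, hx⟩ | ⟨i, hi, hx⟩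
      · exact ⟨Cell.box (!false) i j, hv, (K_inv_box h false i j x).2 hx⟩
      · exact ⟨Cell.top (!false) i, hi, (K_inv_top h false i x).2 hx⟩
      · exact ⟨Cell.bot (!false) i, hi, (K_inv_bot h false i x).2 hx⟩

end F

end Oct
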